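import Pool.Agent.Lib.MP_4fbe7c_an.ND.Base

/-!
BND (project ND): uniform bounds, and uniform Lipschitz bounds for `t ≥ 1`.
-/

set_option autoImplicit false

open Set MeasureTheory

namespace Pool.Agent.Lib.MP_4fbe7c_an.ND.H27

open Pool.Agent.Lib.MP_4fbe7c_an.ND

theorem bnd (hcmp : CmpStatement) (hlip : LipStatement) (hpre : PreStatement) :
    BndStatement := by
  intro p Ω q m N d B hΩ hm hd
  obtain ⟨S, hS0, hS⟩ := hΩ.exists_bound hm
  obtain ⟨⟨C, c, hC, hc, hL⟩, _⟩ := hlip p Ω q hΩ
  set M : ℝ := max (max B S) 1 with hMdef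
  have hM1 : 1 ≤ M := le_max_right _ _
  have hM0 : 0 < M := lt_of_lt_of_le one_pos hM1
  have hMB : B ≤ M := (le_max_left _ _).trans (le_max_left _ _)
  have hMS : S ≤ M := (le_max_right _ _).trans (le_max_left _ _)
  set F : ℝ := M * (S + N * M) with hFdef
  have hF0 : 0 < F := by positivity
  set T : Fin N → ℝ := fun i => min (min 1 (c / d i)) (M / (8 * F)) with hTdef
  have hT0 : ∀ i, 0 < T i := fun i =>
    lt_min (lt_min one_pos (div_pos hc (hd i))) (by positivity)
  have hT1 : ∀ i, T i ≤ 1 := fun i => (min_le_left _ _).trans (min_le_left _ _)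
  have hTc : ∀ i, d i * T i ≤ c := by
    intro i
    have h1 : T i ≤ c / d i := (min_le_left _ _).trans (min_le_right _ _)
    rw [le_div_iff₀ (hd i)] at h1
    linarith
  have hTF : ∀ i, 8 * F * T i ≤ M := by
    intro i
    have h1 : T i ≤ M / (8 * F) := min_le_right _ _
    rw [le_div_iff₀ (by positivity)] at h1
    linarith
  refine ⟨M, ∑ i, C * M / Real.sqrt (d i * T i), ?_⟩
  intro u v w hsol hB i
  have hnn : ∀ j, ∀ t, 0 ≤ t → ∀ x ∈ closure Ω, 0 ≤ u j t x :=
    fun j => (hpre p Ω q m N d u v w hΩ hm hd hsol j).1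
  have hle : ∀ j, ∀ t, 0 ≤ t → ∀ x ∈ closure Ω, u j t x ≤ M := by
    intro j t ht x hx
    have e1 := (hsol.evo j).lin (Evo.const (Ω := Ω) (q := q) M) 1 (-1)
    have e2 := hcmp p Ω q _ _ _ _ (d j) 0 0 0 t hΩ e1 (hd j) le_rfl le_rfl le_rfl ?_ ?_ t ht
      le_rfl x hx
    · simp only [one_mul, add_zero, zero_mul, Real.exp_zero, mul_one] at e2
      linarith
    · intro s hs _ y hy hpos
      simp only [one_mul] at hpos
      have a1 : M < u j s y := by linarith
      have a2 : u j s y ≤ ∑ k, u k s y :=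
        Finset.single_le_sum (f := fun k => u k s y) (fun k _ => hnn k s hs.le y hy)
          (Finset.mem_univ j)
      have a3 : m y ≤ S := (le_abs_self _).trans (hS y hy)
      have a4 : u j s y * (m y - ∑ k, u k s y) ≤ 0 :=
        mul_nonpos_of_nonneg_of_nonpos (hnn j s hs.le y hy) (by linarith)
      simp only [tr_add, tr_smul, tr_zero, one_mul, add_zero, mul_zero, zero_mul]
      linarith
    · intro y hy
      have := hB j y hy
      linarith
  refine ⟨hle i, ?_⟩
  intro t ht
  have hs : 0 ≤ t - T i := by linarith [hT1 i]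
  have e1 := (hsol.evo i).shift hs
  have hbd : ∀ s, 0 ≤ s → ∀ x ∈ closure Ω, |u i s x * (m x - ∑ j, u j s x)| ≤ F := by
    intro s hs x hx
    have a1 : 0 ≤ ∑ j, u j s x := Finset.sum_nonneg fun j _ => hnn j s hs x hx
    have a2 : ∑ j, u j s x ≤ N * M := by
      calc ∑ j, u j s x ≤ ∑ _j : Fin N, M := Finset.sum_le_sum fun j _ => hle j s hs x hx
        _ = N * M := by simp
    have a3 : |m x| ≤ S := hS x hx
    have a4 : |m x - ∑ j, u j s x| ≤ S + N * M := by
      rw [abs_le] at a3 ⊢
      constructor <;> linarith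
    rw [abs_mul, abs_of_nonneg (hnn i s hs x hx)]
    exact mul_le_mul (hle i s hs x hx) a4 (abs_nonneg _) hM0.le
  have e2 := hL _ _ _ _ (d i) M F (T i) e1 (hd i) hM0 hF0.le (hT0 i) (hTc i) (hTF i) ?_ ?_
  · intro x hx y hy
    have e3 := e2 x hx y hy
    simp only [sub_add_cancel] at e3
    refine e3.trans (mul_le_mul_of_nonneg_right ?_ (norm_nonneg _))
    exact Finset.single_le_sum (f := fun i => C * M / Real.sqrt (d i * T i))
      (fun k _ => by positivity) (Finset.mem_univ i)
  · intro s hs0 _ x hx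
    have a1 := hnn i (t - T i + s) (by linarith) x hx
    rw [abs_of_nonneg a1]
    exact hle i _ (by linarith) x hx
  · intro s hs0 _ x hx
    have a1 := hbd (t - T i + s) (by linarith) x hx
    simp only [add_sub_cancel_left]
    exact a1

end Pool.Agent.Lib.MP_4fbe7c_an.ND.H27
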