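import Pool.Agent.Lib.MP_4fbe7c_an.ND.Base

/-!
STE (project ND): the equation of the steady state, tested with `U / θ`.
-/

set_option autoImplicit false

open Set MeasureTheory

namespace Pool.Agent.Lib.MP_4fbe7c_an.ND.H27

open Pool.Agent.Lib.MP_4fbe7c_an.ND

theorem ste (hibp : IbpStatement) : SteNStatement := by
  intro p Ω q m d θ θ' θ'' U U' hΩ hd hm hθ hU
  have hne : ∀ x ∈ closure Ω, θ x ≠ 0 := fun x hx => (hθ.pos x hx).ne'
  have cθ : ContinuousOn θ (closure Ω) := hθ.c2.toC1.c0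
  have cθ' : ContinuousOn θ' (closure Ω) := hθ.c2.toC1.c1
  have cθi : ContinuousOn (fun x => (θ x)⁻¹) (closure Ω) := cθ.inv₀ hne
  -- the function `1 / θ`
  have h1 : C1 Ω (fun x => (θ x)⁻¹) (fun x => (-((θ x) ^ 2)⁻¹) • θ' x) := by
    refine ⟨cθi, ?_, ?_⟩
    · exact ((cθ.pow 2).inv₀ (fun x hx => pow_ne_zero 2 (hne x hx))).neg.smul cθ'
    · intro x hx
      exact HasGradientAt.comp' (hasDerivAt_inv (hne x (subset_closure hx)))
        (hθ.c2.toC1.d1 x hx)
  have h2 := (hU.mul h1).sub (C1.const 1)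
  have h3 := hibp p Ω q _ _ θ' θ'' hΩ h2 cθ' hθ.c2.c2 hθ.c2.d2 hθ.neu
  have h4 : ∫ x in Ω, (U x * (θ x)⁻¹ - 1) * tr (θ'' x) =
      ∫ x in Ω, (-d⁻¹) * ((U x - θ x) * (m x - θ x)) := by
    refine setIntegral_congr_fun hΩ.measurableSet fun x hx => ?_
    have hx' := subset_closure hx
    have e1 := hθ.eq x hx'
    have e2 : tr (θ'' x) = -d⁻¹ * (θ x * (m x - θ x)) := by
      field_simp
      linarith
    have e3 := hne x hx'
    simp only [e2]
    field_simp
  have h5 : ∫ x in Ω, inner ℝ ((U x • (-((θ x) ^ 2)⁻¹) • θ' x + (θ x)⁻¹ • U' x) - (0 : Eu p))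
        (θ' x) =
      ∫ x in Ω, inner ℝ ((θ x)⁻¹ • θ' x) (U' x - U x • (θ x)⁻¹ • θ' x) := by
    refine setIntegral_congr_fun hΩ.measurableSet fun x hx => ?_
    have e3 := hne x (subset_closure hx)
    simp only [sub_zero, inner_add_left, inner_sub_right, real_inner_smul_left,
      real_inner_smul_right]
    rw [real_inner_comm (U' x) (θ' x)]
    field_simp
    ring
  rw [h4, h5, integral_const_mul] at h3
  have h6 : ∫ x in Ω, (U x - θ x) * (m x - θ x) =
      d * (-(-d⁻¹ * ∫ x in Ω, (U x - θ x) * (m x - θ x))) := by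
    field_simp
  rw [h6, h3, neg_neg]

end Pool.Agent.Lib.MP_4fbe7c_an.ND.H27
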